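import Pool.Agent.R936.ArbF.FinD

/-!
# Homological and numerical equivalence for products with an arbitrary factor over finite fields

Let `X i`, `i ∈ I`, be a family (finite or infinite) of smooth projective varieties over the field with
`q = p ^ e` elements, whose Frobenius eigenvalues generate a group of rank at most `R` and have slopes
with a common denominator `D`. Assume that the pole formula of Tate (the Tate conjecture and the
equality of homological and numerical equivalence) holds for the products of members of the family with
at most `R + 1` different factors, for instance products of elliptic curves of some CM types.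

*Theorem.* There is one product `Y = X i₀ × X j₁ × ⋯ × X jₘ` of members of the family such that for
**every** smooth projective variety `Z` over the field with `q` elements: homological and numerical
equivalence agree on `Z × Y ^ (dim Z)` if and only if they agree on `Z × P` for all products `P` of
members of the family. Nothing is assumed about `Z`.

*Proof.* Let `c = ∑ z_a ⊗ w_a` be the class of a numerically trivial cycle on `Z × P`, with a basis of
words `w_a` in Frobenius eigenvectors. If `z_a ≠ 0`, the `p`-adic valuations of the eigenvalue of `w_a`
are bounded by `dim Z` (normalised with weight `0`), so there is a word `b` on `Y ^ (dim Z)` with the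
same valuations and the same parity. The class `u ⊗ b`, where `u` is the element of the dual basis of the
`w_a` which is dual to `w_a`, is a linear combination of Tate words of the family (here one needs that
the pairing respects the eigenvalues up to roots of unity), so it is algebraic. The contraction of `c`
with it is `z_a ⊗ b`, which is numerically trivial on `Z × Y ^ (dim Z)`, so it vanishes.
-/

open CategoryTheory AlgebraicGeometry

universe u v w

namespace Pool.Agent.Results.MP_0c8446_ag.ArbitraryFactor

open Pool.Agent.H914 Pool.Agent.W534 Pool.Agent.R936.Hel Pool.Agent.R936.ArbF VarClass Obj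
  WeilCohomology
open Pool.Agent.R940 (HasIntegralPolys IsSlopeDenominator)

/-- **One product of members decides for all varieties `Z`**: the equality of homological and numerical
equivalence for `Z` times all products of members of a family over a finite field follows from
`Z × Y ^ (dim Z)`, where the product `Y` of members does not depend on `Z`. -/
theorem result {k : Type u} [Field k] {𝒱 : VarClass k} {ops : CycleOps 𝒱}
    (W : WeilCohomology.{u, v} ops) [IsAlgClosed W.K] (σ : W.K →+* ℂ) (p : ℕ) [Fact p.Prime]
    (Φ : FrobSystem W p) (hRH : ∀ Z : 𝒱.Obj, RiemannHyp Φ σ Z) {I : Type w} [Nonempty I]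
    (X : I → 𝒱.Obj) (e : ℕ) (he : ∀ i, Φ.e (X i) = e) (hint : ∀ i, HasIntegralPolys Φ σ (X i))
    (D : ℕ) (hD : ∀ i, IsSlopeDenominator Φ σ (X i) D) (R : ℕ)
    (hR : RankLe {z | ∃ i, z ∈ eigenvalues Φ σ (X i)} R)
    (h : ∀ i L, (∃ F : Finset I, F.card ≤ R + 1 ∧ ∀ j ∈ i :: L, j ∈ F) →
      ∀ j, j ≤ (prodOf X i L).dim → PoleFormula Φ σ (prodOf X i L) j) :
    ∃ (i₀ : I) (L₀ : List I), ∀ Z : 𝒱.Obj, Φ.e Z = e → HasIntegralPolys Φ σ Z →
      (HomEqNum W (Z.prod (powerOf X i₀ L₀ Z.dim)) ↔
        ∀ i L, HomEqNum W (Z.prod (prodOf X i L))) :=
  num_main hRH he hint hD hR h

end Pool.Agent.Results.MP_0c8446_ag.ArbitraryFactor
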