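import Pool.Agent.R909.DsqE

/-!
# MP_0c8446_ag: homological and numerical equivalence on Hilbert squares

Let `X^[2]` be the Hilbert scheme of two points of the variety `X` of dimension `n ≥ 2`: its cohomology
is the part of `H(X × X)` invariant under the exchange of the factors, plus the cohomology of
`X × P^(n - 2)` twisted by one, by algebraic correspondences.

* If `B` is a variety of positive dimension all of whose cohomology is algebraic (for instance a
  projective space), then homological and numerical equivalence coincide for the cycles on `X × X`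
  if and only if they coincide for the cycles of codimension `N` and `N + 1` on `(X × B)^[2]`, where
  `N = dim (X × B)`, and then they coincide for all cycles on `(X × B)^[2]`.
* If they coincide in these two codimensions on `(X × B)^[2]` for some variety `B` of positive
  dimension, then they coincide for the cycles on `X × X`.
* So homological and numerical equivalence coincide for all varieties if and only if they coincide for
  the cycles of codimension `n` and `n + 1` on the Hilbert squares of all `n`-dimensional varieties.
-/

open CategoryTheory AlgebraicGeometry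

universe u v

namespace Pool.Agent.Results.MP_0c8446_ag.HilbertSquares

open Pool.Agent.H914 Pool.Agent.H447 Pool.Agent.R909 VarClass Obj WeilCohomology

variable {k : Type u} [Field k] {𝒱 : VarClass k} {ops : CycleOps 𝒱}

/-- Homological and numerical equivalence coincide for the cycles of codimension `q` and `q + 1`. -/
def InTwo (W : WeilCohomology.{u, v} ops) (Z : 𝒱.Obj) (q : ℕ) : Prop :=
  HomEqNumIn W Z q ∧ HomEqNumIn W Z (q + 1)

/-- **Homological and numerical equivalence on Hilbert squares.** -/
theorem result (W : WeilCohomology.{u, v} ops) :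
    (∀ X B Z : 𝒱.Obj, AllAlgebraic W B → IsFactor W X B → IsHilb W Z (X.prod B) →
      List.TFAE [HomEqNum W (X.prod X), HomEqNum W Z, InTwo W Z (X.prod B).dim]) ∧
    (∀ X B Z : 𝒱.Obj, IsFactor W X B → IsHilb W Z (X.prod B) → InTwo W Z (X.prod B).dim →
      HomEqNum W (X.prod X)) ∧
    ((∃ Q : 𝒱.Obj, 2 ≤ Q.dim ∧ ∀ V : 𝒱.Obj, IsFactor W V Q) →
      (∀ V : 𝒱.Obj, 2 ≤ V.dim → ∃ Z, IsHilb W Z V) →
      ((∀ V : 𝒱.Obj, HomEqNum W V) ↔ ∀ V Z : 𝒱.Obj, IsHilb W Z V → InTwo W Z V.dim)) := by
  have key : ∀ X B Z : 𝒱.Obj, IsFactor W X B → IsHilb W Z (X.prod B) →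
      (HomEqNum W Z ↔ InTwo W Z (X.prod B).dim) := by
    intro X B Z hB hZ
    obtain ⟨-, -, G, hG⟩ := hB
    exact (hilbertD_tfae hZ hG).out 0 1
  refine ⟨fun X B Z hB hf hZ => ?_, fun X B Z hB hZ h => hB.square hZ ((key X B Z hB hZ).2 h),
    fun hQ hH => ?_⟩
  · have hk := key X B Z hf hZ
    have h1 := square_iff hB hf hZ
    tfae_have 1 ↔ 2 := h1.symm
    tfae_have 2 ↔ 3 := hk
    tfae_finish
  · obtain ⟨Q, hQ2, hQ⟩ := hQ
    exact all_iff hQ2 hQ hH

end Pool.Agent.Results.MP_0c8446_ag.HilbertSquares
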