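import Pool.Agent.R908.KpI

/-!
# Homological and numerical equivalence, and the injectivity conjecture, over arbitrary fields

Let `k` be algebraically closed, of **any** characteristic, and `W` a Weil cohomology theory with
**any** coefficient field `K` of characteristic zero, on a class of smooth proper varieties over `k`
closed under products. The *injectivity conjecture* for `Z` says that cycles of the same codimension,
the classes of which are linearly independent over `ℚ`, have linearly independent classes over `K`:
the map from `K ⊗ (cycles modulo homological equivalence)` to the cohomology is injective. It follows
from the conjecture D (homological and numerical equivalence coincide), but is much weaker: in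
characteristic zero it holds for the classical cohomology theories by comparison with the singular
cohomology, with its rational structure.

Let `𝒢` be a set of symmetries of `W`, for instance the Galois group of a finitely generated field
`k₀` with algebraic closure `k` over which all varieties of the class are given; `𝒢` may be empty. Let
`P` be a set of varieties `X` with a cycle on `X × X` acting on the transcendental cohomology `T(X)`
(the orthogonal complement of all algebraic classes) by an operator `e` such that

* `e` is semisimple, its eigenvalues are algebraic numbers in `K`, and the adjoint of `e` for the cup
  product form is `Q(e)`, with a rational polynomial `Q` giving the complex conjugate of each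
  eigenvalue in each complex embedding (so `ℚ[e]` is a product of totally real and CM fields, and
  the adjunction is its positive involution);
* each eigenspace of `e` in `T(X)` is irreducible under the algebraic correspondences and `𝒢`.

Let `𝒴` be **any** set of varieties; nothing is assumed about the relation between `P` and `𝒴`.

**Theorem.** The following are equivalent:
* the conjecture D holds for the members of `P` and for all products of members of `𝒴`, and the
  injectivity conjecture holds for all products of members of `P ∪ 𝒴`;
* the conjectures D and B hold for all varieties dominated by products of members of `P ∪ 𝒴`.

Example. Let `k` be an algebraic closure of a finitely generated field `k₀`, of any characteristic,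
`K` an algebraic closure of `ℚ_ℓ`, with any `ℓ` different from the characteristic, and `P` the set of
all curves over `k₀`. For `e` one can take a generator of the centre of the algebra of endomorphisms
of the Jacobian; by the positivity of the Rosati involution and by the theorems of Weil, Tate, Zarhin,
Mori and Faltings the conditions hold. Hence the theorem says that **D holds for all abelian
varieties and all products of curves over `k` if and only if the injectivity conjecture holds for
all products of curves**. The same is true for products of curves with the powers of any variety `Y`
for which D holds. Over finite fields one can take the Frobenius endomorphism for `e`, and all
endomorphisms of the eigenspaces are algebraic (compare the work of Clozel, Ann. of Math. 1999). Over larger fields of positive characteristic the eigenspaces have few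
algebraic endomorphisms, the image of the Galois group on them can be any reductive group, and one
cannot contract a class with its complex conjugate. This is replaced here by the theorem of Kempf.

The proof. Let `V_a` be the eigenspaces of `e` in `T = T(X)`. Consider all multilinear forms on `T`
given by the numerically trivial classes on the products `X^m × Y` and by linear forms on `H(Y)`. By
the theorems of Hilbert and Mumford and of Kempf, if there is a nonzero form, then there is an optimal
one-parameter subgroup of the orthogonal or symplectic group of `T`, driving all these forms to zero,
and its filtration of `T` is canonical, so that it is stable under `𝒢` and the correspondences. Hence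
it is given by real weights `v(a)` of the eigenspaces, with `v(ā) = -v(a)` as `V_ā` is the dual of
`V_a`, such that each numerically trivial class with a nonzero component in
`V_(a_1) ⊗ ⋯ ⊗ V_(a_m) ⊗ H(Y)` has `v(a_1) + ⋯ + v(a_m) > 0`. By the injectivity conjecture the
complex conjugation acts on the combinations of classes of cycles with coefficients in the field of
algebraic numbers, so that the component in `V_(ā_1) ⊗ ⋯ ⊗ V_(ā_m) ⊗ H(Y)` is not zero either, and
`-v(a_1) - ⋯ - v(a_m) > 0`, a contradiction. All this is proved here from scratch.
-/

universe u v

namespace Pool.Agent.Results.MP_0c8446_ag.InjectivityAllFields

open Pool.Agent.H914 Pool.Agent.R908

/-- **The conjectures D and B for all varieties dominated by products of curves, … and arbitrary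
varieties, over an arbitrary field, are equivalent to the injectivity conjecture for the products.** -/
theorem result {k : Type u} [Field k] {𝒱 : VarClass k} {ops : CycleOps 𝒱}
    (W : WeilCohomology.{u, v} ops) (𝒢 : Set (Symmetry W)) (P 𝒴 : Set 𝒱.Obj)
    (hP : ∀ X ∈ P, HasConjugationCycle 𝒢 X) :
    ((∀ X ∈ P, HomEqNum W X) ∧ (∀ Y, IsProductOf 𝒴 Y → HomEqNum W Y) ∧
      ∀ Z, IsProductOf (P ∪ 𝒴) Z → InjectivityConj W Z) ↔
      ∀ Z, IsProductOf (P ∪ 𝒴) Z → ∀ V, Dominates W Z V → HomEqNum W V ∧
        ∀ D, V.IsCyc 1 D → HardLefschetz W V D → LefschetzB W V D :=
  conjugation_iff hP

end Pool.Agent.Results.MP_0c8446_ag.InjectivityAllFields
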