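import Pool.Agent.R910.Mix.T

/-!
# MP_0c8446_ag: homological and numerical equivalence for all varieties, from the middle

Let `k` be an uncountable algebraically closed field and `W` a Weil cohomology of the smooth projective varieties
over `k` with the hard and the weak Lefschetz theorem, for example `ℓ`-adic cohomology.

**Theorem.** For each natural number `j` these are equivalent.

1. Homological and numerical equivalence coincide for the cycles of dimension `j` on all `X` of dimension `2 j + 1`.
2. They coincide for the cycles of dimension `j` on all `X` of any dimension; they coincide for the cycles of
   codimension `j` on all `X` with `dim X ≥ 2 j`, and the conjecture `A` holds in codimension `j` for these `X` and all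
   divisors which satisfy the hard Lefschetz theorem.
3. They coincide in the middle codimension `j` for all `X` of dimension `2 j`, and on every `X` of dimension
   `2 j + 1` there is one divisor `D` with the hard Lefschetz theorem such that the multiplication by `D` maps the
   algebraic classes of codimension `j` onto those of codimension `j + 1`.

Hence homological and numerical equivalence coincide for all cycles on all varieties if and only if they coincide for
the cycles of dimension `j` on varieties of dimension `2 j + 1`, for all `j`. For example, the conjecture for curves
and for divisors on varieties of all dimensions is equivalent to the conjecture for curves on threefolds, and to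
the surjectivity of `NS(X) → N_1(X)`, `E ↦ D E`, for threefolds, modulo homological equivalence.

Since numerical equivalence and `ℓ`-adic homological equivalence are compatible with the extension of the base
field, the question for all fields is the question for uncountable algebraically closed fields.

In the Lean statement the varieties are in a set `𝒮`, and `HasGeneralSections W 𝒮 j` collects the known theorems
which are used: weak Lefschetz, hard Lefschetz, and (`general`) that for `2 j + 1 < dim X` every cycle `w` of
dimension `j` on `X` is homologous to a cycle on a hyperplane section `Z` which is so general that each algebraic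
class of codimension `j` on `Z` is the restriction of an algebraic class on `X`. The last point is a theorem: by
Kleiman (smoothing of cycles) we may assume that `w` is supported on a smooth subscheme `T` of dimension `j`; the
hypersurface sections of large degree through `T` correspond to the members of a very ample linear system on the
blow-up of `X` in `T`, and are smooth in general (Altman and Kleiman); the algebraic classes of codimension
`j < dim Z / 2` on a very general `Z` come from algebraic classes on `X`, by the argument of Noether and Lefschetz,
because the cycles on the very general member of a pencil come from cycles on its total space.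

Proof of 1 ⇒ 2. Let `w` be a numerically trivial cycle of dimension `j` on `X`, `dim X > 2 j + 1`, on a general
section `Z`. It is numerically trivial on `Z`, too, because all cycles of codimension `j` on `Z` come from `X`. By
induction it is homologically trivial on `Z`, and so on `X`. For `dim X ≤ 2 j` consider `w` on `X × ℙ ^ 1`. In small
codimension restrict to hyperplane sections. The conjecture `A` follows by duality.
-/

open CategoryTheory AlgebraicGeometry

universe u v

namespace Pool.Agent.Results.MP_0c8446_ag.MiddleDimension

open Pool.Agent.H914 Pool.Agent.H447 Pool.Agent.R910.Mix

/-- **Homological and numerical equivalence coincide on all varieties if they coincide for the cycles of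
dimension `j` on the varieties of dimension `2 j + 1`.** -/
theorem result {k : Type u} [Field k] {𝒱 : VarClass k} {ops : CycleOps 𝒱}
    (W : WeilCohomology.{u, v} ops) (𝒮 : Set 𝒱.Obj) (hS : ∀ j, HasGeneralSections W 𝒮 j) :
    (∀ j, List.TFAE [
      ∀ X ∈ 𝒮, X.dim = 2 * j + 1 → HomEqNumIn W X (j + 1),
      (∀ X ∈ 𝒮, j ≤ X.dim → HomEqNumIn W X (X.dim - j)) ∧
        ∀ X ∈ 𝒮, 2 * j ≤ X.dim → HomEqNumIn W X j ∧
          ∀ D, X.IsCyc 1 D → HardLefschetz W X D → LefschetzAIn W X D j,
      (∀ X ∈ 𝒮, X.dim = 2 * j → HomEqNumIn W X j) ∧
        ∀ X ∈ 𝒮, X.dim = 2 * j + 1 →
          ∃ D, X.IsCyc 1 D ∧ HardLefschetz W X D ∧ LefschetzAIn W X D j]) ∧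
    ((∀ X ∈ 𝒮, ∀ p, HomEqNumIn W X p) ↔
      ∀ j, ∀ X ∈ 𝒮, X.dim = 2 * j + 1 → HomEqNumIn W X (j + 1)) :=
  ⟨fun j => homEqNum_tfae (hS j), homEqNum_iff hS⟩

end Pool.Agent.Results.MP_0c8446_ag.MiddleDimension
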